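import Pool.Agent.MP_ee8c61_ag.M3L.Dat

/-! The complex points of a model form a separated space that is proper over affine space. -/

namespace Pool.Agent.MP_ee8c61_ag.Q3RT

open M3 M3L MvPolynomial Set Filter Topology
open Pool.Agent.MP_96693b_ag.RS (Loc LocOf exists_locOf)

noncomputable section

section Lim

variable {K α : Type} [Field K] [Algebra ℂ K] (F : Filter α) (l : α → Loc K)

/-- The functions that are defined along a family of points. -/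
def df : Subalgebra ℂ K where
  carrier := {x | ∀ᶠ a in F, x ∈ (l a).O}
  mul_mem' := fun h h' => (h.and h').mono fun _ e => mul_mem e.1 e.2
  add_mem' := fun h h' => (h.and h').mono fun _ e => add_mem e.1 e.2
  algebraMap_mem' := fun c => .of_forall fun a => (l a).O.algebraMap_mem c

/-- The functions that have a limit along a family of points, with the limit. -/
def gl : Subalgebra ℂ (K × ℂ) where
  carrier := {x | x.1 ∈ df F l ∧ Tendsto (fun a => (l a).ev x.1) F (𝓝 x.2)}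
  mul_mem' := fun h h' => ⟨mul_mem h.1 h'.1, (h.2.mul h'.2).congr'
    ((Eventually.and h.1 h'.1).mono fun a e => ((l a).ev_mul _ e.1 _ e.2).symm)⟩
  add_mem' := fun h h' => ⟨add_mem h.1 h'.1, (h.2.add h'.2).congr'
    ((Eventually.and h.1 h'.1).mono fun a e => ((l a).ev_add _ e.1 _ e.2).symm)⟩
  algebraMap_mem' := fun c => ⟨(df F l).algebraMap_mem c,
    tendsto_const_nhds.congr fun a => ((l a).ev_alg c).symm⟩

/-- The functions that have a limit. -/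
def dm : Subalgebra ℂ K := (gl F l).map (AlgHom.fst ℂ _ _)

variable {F l} {x : K} {c c' : ℂ}

theorem mem_dm : x ∈ dm F l ↔ ∃ c, (x, c) ∈ gl F l :=
  ⟨fun ⟨z, h, e⟩ => ⟨z.2, e ▸ h⟩, fun ⟨_, h⟩ => ⟨_, h, rfl⟩⟩

theorem gl_fun [F.NeBot] (h : (x, c) ∈ gl F l) (h' : (x, c') ∈ gl F l) : c = c' :=
  tendsto_nhds_unique h.2 h'.2

theorem df_inv (h : x ∈ df F l) (h0 : ∀ᶠ a in F, (l a).ev x ≠ 0) : x⁻¹ ∈ df F l :=
  (Eventually.and h h0).mono fun a e => (l a).inv_mem _ e.1 e.2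

theorem gl_inv (h : (x, c) ∈ gl F l) (h0 : c ≠ 0) : (x⁻¹, c⁻¹) ∈ gl F l :=
  ⟨df_inv h.1 (h.2.eventually_ne h0), (h.2.inv₀ h0).congr'
    ((Eventually.and h.1 (h.2.eventually_ne h0)).mono fun _ e => (Loc.ev_inv e.1 e.2).symm)⟩

theorem exists_lim [F.NeBot] {A : Subalgebra ℂ K} (h : A ≤ dm F l) :
    ∃ γ : A →ₐ[ℂ] ℂ, ∀ a : A, ((a : K), γ a) ∈ gl F l := by
  choose γ hγ using fun a : A => mem_dm.1 (h a.2)
  exact ⟨{ toFun := γ
           map_one' := gl_fun (hγ 1) (one_mem _)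
           map_mul' := fun a b => gl_fun (hγ _) (mul_mem (hγ a) (hγ b))
           map_zero' := gl_fun (hγ 0) (zero_mem _)
           map_add' := fun a b => gl_fun (hγ _) (add_mem (hγ a) (hγ b))
           commutes' := fun c => gl_fun (hγ _) ((gl F l).algebraMap_mem c) }, hγ⟩

theorem gl_of_chart {A : Subalgebra ℂ K} {P : Loc K} (hP : LocOf A P)
    (h : ∀ g ∈ A, (g, P.ev g) ∈ gl F l) : ∀ g ∈ P.O, (g, P.ev g) ∈ gl F l := fun g hg => by
  obtain ⟨p, hp, q, hq, h0, e⟩ := hP.frac g hg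
  have := mul_mem (h p hp) (gl_inv (h q hq) h0)
  rwa [Prod.mk_mul_mk, ← div_eq_mul_inv, ← div_eq_mul_inv,
    ← Loc.ev_div (hP.le hp) (hP.le hq) h0, ← eq_div_of_mul_eq (Loc.ne_zero_of_ev h0) e] at this

theorem dicho {𝒰 : Ultrafilter α} (h : x ∈ df (𝒰 : Filter α) l) :
    x ∈ dm (𝒰 : Filter α) l ∨ ((x⁻¹, 0) ∈ gl (𝒰 : Filter α) l ∧ ∀ᶠ a in 𝒰, (l a).ev x ≠ 0) := by
  have k : ∀ f : α → ℂ, (∀ᶠ x in 𝒰, ‖f x‖ ≤ 1) → ∃ c, Tendsto f 𝒰 (𝓝 c) := fun f h =>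
    ((isCompact_closedBall 0 1).ultrafilter_le_nhds' (𝒰.map f)
      (h.mono fun _ => mem_closedBall_zero_iff.2)).imp fun _ h => h.2
  rcases 𝒰.em fun a => ‖(l a).ev x‖ ≤ 1 with h1 | h1
  · exact Or.inl (mem_dm.2 ((k _ h1).imp fun _ e => ⟨h, e⟩))
  have h2 : ∀ᶠ a in 𝒰, (l a).ev x ≠ 0 := h1.mono fun a e e' => e (by simp [e'])
  obtain ⟨c, hc⟩ := k (fun a => (l a).ev x⁻¹) (by
    filter_upwards [h, h1, h2] with a k1 k2 k3
    rw [Loc.ev_inv k1 k3, norm_inv]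
    exact inv_le_one_of_one_le₀ (not_le.1 k2).le)
  have h3 : (x⁻¹, c) ∈ gl (𝒰 : Filter α) l := ⟨df_inv h h2, hc⟩
  by_cases h0 : c = 0
  · exact Or.inr ⟨h0 ▸ h3, h2⟩
  · exact Or.inl (mem_dm.2 ⟨_, by simpa using gl_inv h3 h0⟩)

theorem exists_val [F.NeBot] : ∃ V : ValuationSubring K, (∀ x ∈ dm F l, x ∈ V) ∧
    ∀ x, (x, 0) ∈ gl F l → ¬Un V x := by
  obtain ⟨γ, hγ⟩ := exists_lim (le_refl (dm F l))
  let φ : (dm F l).toSubring →+* ℂ := γ.toRingHom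
  obtain ⟨V, h1, h2⟩ := Ideal.image_subset_nonunits_valuationSubring (RingHom.ker φ)
    (RingHom.ker_ne_top φ)
  refine ⟨V, fun x hx => h1 hx, fun x h hu => ?_⟩
  have h3 : x ∈ V.nonunits := h2 ⟨⟨x, mem_dm.2 ⟨0, h⟩⟩, gl_fun (hγ ⟨x, mem_dm.2 ⟨0, h⟩⟩) h, rfl⟩
  exact (V.mem_nonunits_iff.1 h3).ne (un_iff.1 hu)

end Lim

variable {N : ℕ} {M : Mod N} {f : Po N}

variable (M) in
/-- The complex points. -/
def Pt : Type := M.pts

instance : TopologicalSpace (Pt M) := .generateFrom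
  {S | ∃ (g : KK N) (O : Set ℂ), IsOpen O ∧ S = {P | g ∈ P.1.O ∧ P.1.ev g ∈ O}}

theorem tendsto_pt {α : Type} {F : Filter α} {l : α → Pt M} {y : Pt M} :
    Tendsto l F (𝓝 y) ↔ ∀ g ∈ y.1.O, (g, y.1.ev g) ∈ gl F fun a => (l a).1 := by
  refine TopologicalSpace.tendsto_nhds_generateFrom_iff.trans ⟨fun h g hg => ⟨?_, ?_⟩, ?_⟩
  · exact mem_of_superset (h _ ⟨g, univ, isOpen_univ, rfl⟩ ⟨hg, trivial⟩) fun _ h => h.1
  · exact tendsto_nhds.2 fun O hO hs =>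
      mem_of_superset (h _ ⟨g, O, hO, rfl⟩ ⟨hg, hs⟩) fun _ h => h.2
  · rintro h _ ⟨g, O, hO, rfl⟩ hy
    exact Eventually.and (h g hy.1).1 ((h g hy.1).2 (hO.mem_nhds hy.2))

theorem le_of_lim {α : Type} {F : Filter α} [F.NeBot] {l : α → Loc (KK N)} {y y' : Pt M}
    (h : ∀ g ∈ y.1.O, (g, y.1.ev g) ∈ gl F l) (h' : ∀ g ∈ y'.1.O, (g, y'.1.ev g) ∈ gl F l) :
    y'.1.O ≤ y.1.O := by
  obtain ⟨b, hP⟩ := y.2
  obtain ⟨b', hP'⟩ := y'.2
  have k : ∀ x ∈ M.S.A b', x ∈ y.1.O ∧ y.1.ev x = y'.1.ev x := fun x hx => by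
    obtain ⟨u, u1, u2, u3⟩ := M.S.loc b b' x hx
    obtain ⟨c, hc⟩ := mem_dm.1 ((sup_le (fun a ha => mem_dm.2 ⟨_, h a (hP.le ha)⟩)
      (fun a ha => mem_dm.2 ⟨_, h' a (hP'.le ha)⟩) : _ ≤ dm F l) u2)
    have h1 : y.1.ev u * c = 1 :=
      gl_fun (by simpa using mul_mem (h _ (hP.le u1)) hc) (one_mem (gl F l))
    have h3 : x ∈ y.1.O := by
      simpa using Loc.div_mem (hP.le u3) (hP.le u1) (left_ne_zero_of_mul_eq_one h1)
    exact ⟨h3, gl_fun (h x h3) (h' x (hP'.le hx))⟩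
  exact hP'.le_of_ev (fun x hx => (k x hx).1) fun x hx => (k x hx).2

instance : T2Space (Pt M) := t2_iff_ultrafilter.2 fun _ h h' =>
  have k := tendsto_pt.1 (tendsto_id'.2 h)
  have k' := tendsto_pt.1 (tendsto_id'.2 h')
  Subtype.ext (Loc.ext' (le_antisymm (le_of_lim k' k) (le_of_lim k k')))

/-- The image in affine space. -/
def an (P : Pt M) (i : Fin N) : ℂ := P.1.ev (ip N (X i))

theorem ip_mem (h : M.OK f) (P : Pt M) (p : Po N) : ip N p ∈ P.1.O :=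
  P.2.elim fun b hb => hb.le (h.pol b p)

theorem ev_ip (h : M.OK f) (P : Pt M) (p : Po N) : P.1.ev (ip N p) = eval (an P) p := by
  induction p using MvPolynomial.induction_on with
  | C c => exact (congrArg _ ((ip N).commutes c)).trans ((P.1.ev_alg c).trans (eval_C c).symm)
  | add p q hp hq => rw [map_add, map_add, P.1.ev_add _ (ip_mem h P p) _ (ip_mem h P q), hp, hq]
  | mul_X p i hp =>
    rw [map_mul, map_mul, P.1.ev_mul _ (ip_mem h P p) _ (ip_mem h P _), hp, eval_X]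
    rfl

theorem fg (h : M.OK f) (b : M.ι) : (M.S.A b).FG :=
  (exists_gn h b).elim fun G => Subalgebra.fg_def.2 ⟨_, finite_range _, G.adj⟩

theorem proper (h : M.OK f) : IsProperMap (an (M := M)) := by
  refine isProperMap_iff_ultrafilter_of_t2.2 ⟨continuous_pi fun i =>
    continuous_iff_continuousAt.2 fun l => (tendsto_pt.1 tendsto_id _ (ip_mem h l _)).2,
    fun 𝒰 z hz => ?_⟩
  let l : Pt M → Loc (KK N) := fun a => a.1
  obtain ⟨b, -, hb⟩ := (Ultrafilter.eventually_exists_mem_iff (finite_univ (α := M.ι))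
    (P := fun b (a : Pt M) => LocOf (M.S.A b) a.1) (f := 𝒰)).1
    (.of_forall fun a => a.2.imp fun _ e => ⟨trivial, e⟩)
  have hb' : M.S.A b ≤ df (𝒰 : Filter _) l := fun g hg => hb.mono fun _ e => e.le hg
  obtain ⟨V, h1, h2⟩ := exists_val (F := (𝒰 : Filter _)) (l := l)
  obtain ⟨b', hV⟩ := h.cov V fun p => h1 _ (mem_dm.2 ⟨eval z p,
    .of_forall fun a => ip_mem h a p, by
      simp only [l, ev_ip h]
      exact ((continuous_eval p).tendsto z).comp hz⟩)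
  let W : Subalgebra ℂ (KK N) :=
    { carrier := {x | ∃ s ∈ dm (𝒰 : Filter _) l, (∀ᶠ a in 𝒰, (l a).ev s ≠ 0) ∧ x * s ∈ V}
      mul_mem' := fun {x y} ⟨s, s1, s2, s3⟩ ⟨t, t1, t2, t3⟩ => ⟨s * t, mul_mem s1 t1, by
        filter_upwards [s2, t2] with a k1 k2
        rw [(l a).ev_mul _ (Loc.mem_of_ev k1) _ (Loc.mem_of_ev k2)]
        exact mul_ne_zero k1 k2, by
        rw [mul_mul_mul_comm]
        exact mul_mem s3 t3⟩
      add_mem' := fun {x y} ⟨s, s1, s2, s3⟩ ⟨t, t1, t2, t3⟩ => ⟨s * t, mul_mem s1 t1, by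
        filter_upwards [s2, t2] with a k1 k2
        rw [(l a).ev_mul _ (Loc.mem_of_ev k1) _ (Loc.mem_of_ev k2)]
        exact mul_ne_zero k1 k2, by
        rw [show (x + y) * (s * t) = x * s * t + y * t * s by ring]
        exact add_mem (mul_mem s3 (h1 t t1)) (mul_mem t3 (h1 s s1))⟩
      algebraMap_mem' := fun c => ⟨1, one_mem _, .of_forall fun a => by simp [Loc.ev_one], by
        rw [mul_one]
        exact h1 _ (Subalgebra.algebraMap_mem _ c)⟩ }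
  have one : ∀ x ∈ V, x ∈ W := fun x hx =>
    ⟨1, one_mem _, .of_forall fun a => by simp [Loc.ev_one], by rwa [mul_one]⟩
  have hW : df (𝒰 : Filter _) l ≤ W := fun x hx => by
    rcases dicho hx with e | ⟨e, e'⟩
    · exact one x (h1 x e)
    · refine ⟨x⁻¹, mem_dm.2 ⟨_, e⟩, ?_, ?_⟩
      · filter_upwards [e', hx] with a k1 k2
        rw [Loc.ev_inv k2 k1]
        exact inv_ne_zero k1
      · rw [mul_inv_cancel₀ (Loc.ne_zero_of_ev e'.exists.choose_spec)]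
        exact one_mem V
  have hd : M.S.A b' ≤ dm (𝒰 : Filter _) l := fun x hx => by
    obtain ⟨u, u1, u2, u3⟩ := M.S.loc b b' x hx
    obtain ⟨s, s1, s2, s3⟩ := (sup_le (hb'.trans hW) (fun g hg => one g (hV g hg)) : _ ≤ W) u2
    have hs := Loc.ne_zero_of_ev s2.exists.choose_spec
    have hu : ∀ᶠ a in 𝒰, (l a).ev u ≠ 0 := by
      refine (𝒰.em fun a => (l a).ev u = 0).resolve_left fun e => ?_
      have k1 : s⁻¹ ∈ df (𝒰 : Filter _) l := df_inv (mem_dm.1 s1).choose_spec.1 s2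
      have k2 : ((u : KK N) * s⁻¹, (0 : ℂ)) ∈ gl (𝒰 : Filter _) l :=
        ⟨mul_mem (hb' u1) k1, tendsto_const_nhds.congr' (by
          filter_upwards [e, hb' u1, k1] with a k3 k4 k5
          rw [(l a).ev_mul _ k4 _ k5, k3, zero_mul])⟩
      refine h2 _ k2 ⟨mul_ne_zero u.ne_zero (inv_ne_zero hs), h1 _ (mem_dm.2 ⟨_, k2⟩), ?_⟩
      simpa [mul_comm] using s3
    have hx' : x ∈ df (𝒰 : Filter _) l := by
      simpa using mul_mem (df_inv (hb' u1) hu) (hb' u3)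
    refine (dicho hx').resolve_right fun e => h2 _ e.1
      ⟨inv_ne_zero (Loc.ne_zero_of_ev e.2.exists.choose_spec), h1 _ (mem_dm.2 ⟨_, e.1⟩), ?_⟩
    simpa using hV x hx
  obtain ⟨γ, hγ⟩ := exists_lim hd
  obtain ⟨P, hP, e⟩ := exists_locOf (fg h b') γ
  exact ⟨⟨P, b', hP⟩, tendsto_id'.1 (tendsto_pt.2
    (gl_of_chart hP fun g hg => (e ⟨g, hg⟩).symm ▸ hγ ⟨g, hg⟩))⟩

theorem pt_ext {b : M.ι} {P P' : Pt M} (h : LocOf (M.S.A b) P.1) (h' : LocOf (M.S.A b) P'.1)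
    (e : ∀ g ∈ M.S.A b, P.1.ev g = P'.1.ev g) : P = P' :=
  Subtype.ext (Loc.ext' (le_antisymm (h.le_of_ev h'.le fun g hg => (e g hg).symm)
    (h'.le_of_ev h.le e)))

theorem le_of_off (h : M.OK f) {P P' : Pt M} (hP : ∀ j, ¬M.On P.1 j) (e : an P = an P') :
    P.1.O ≤ P'.1.O := by
  obtain ⟨b, hb⟩ := P.2
  obtain ⟨G⟩ := exists_gn h b
  let φ : (G.ch h).A →ₐ[ℂ] ℂ := evh hb
  have := RingHom.ker_isPrime φ.toRingHom
  obtain ⟨r, hr, H⟩ := zm (G.ch h) (M.S.A b).val Subtype.val_injective (G.val_f h)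
    (RingHom.ker φ.toRingHom) (by
      obtain ⟨v, hv, e'⟩ := G.det_eq h
      change evh hb _ ≠ 0
      rw [e', map_mul, map_prod]
      refine mul_ne_zero (Finset.prod_ne_zero_iff.2 fun j _ => ?_) (hv.map _).ne_zero
      rw [map_pow]
      exact pow_ne_zero _ fun e => hP j ((on_iff h hb j).2 e))
  have e1 : ∀ p, P'.1.ev (ip N p) = P.1.ev (ip N p) := fun p => by rw [ev_ip h, ev_ip h, e]
  have k : ∀ x ∈ M.S.A b, x ∈ P'.1.O ∧ P'.1.ev x = P.1.ev x := fun x hx => by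
    obtain ⟨n, p, e'⟩ := H ⟨x, hx⟩
    have e2 : ip N (r ^ n) * x = ip N p := by
      rw [← G.val_f h, ← G.val_f h, ← e', map_pow]
      rfl
    have e3 : P.1.ev (ip N (r ^ n)) ≠ 0 := by
      rw [map_pow, Loc.ev_pow (ip_mem h P r), ← G.val_f h]
      exact pow_ne_zero _ hr
    rw [eq_div_of_mul_eq (Loc.ne_zero_of_ev e3) ((mul_comm _ _).trans e2),
      Loc.ev_div (ip_mem h P' _) (ip_mem h P' _) ((e1 _).trans_ne e3),
      Loc.ev_div (ip_mem h P _) (ip_mem h P _) e3, e1, e1]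
    exact ⟨Loc.div_mem (ip_mem h P' _) (ip_mem h P' _) ((e1 _).trans_ne e3), rfl⟩
  exact hb.le_of_ev (fun x hx => (k x hx).1) fun x hx => (k x hx).2

end

end Pool.Agent.MP_ee8c61_ag.Q3RT
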